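import Pool.Agent.H38.WT.Targets

/-!
# Row MU of wt_modules: equality of the support counts (helper79)
-/

set_option autoImplicit false

namespace Pool.Agent.H79.WT

open Pool.Agent.H38.WT

lemma not_con12 {m : ℕ} (l : ℕ) (F : Set (Set (Fin m))) : ¬ Con12 l F ↔ PJ l F m := by
  constructor
  · intro h G' hG' G hG hsub x hx y hy hy'
    refine ⟨fun hxy _ hgood => h ⟨G', hG', G, hG, hsub, x, hx, y, hy, hy', hxy, hgood⟩, ?_⟩
    intro _ hmx
    exact absurd x.2 (not_lt.2 hmx)
  · rintro h ⟨G', hG', G, hG, hsub, x, hx, y, hy, hy', hxy, hgood⟩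
    exact (h G' hG' G hG hsub x hx y hy hy').1 hxy y.2 hgood

lemma not_con21 {m : ℕ} (l : ℕ) (F : Set (Set (Fin m))) : ¬ Con21 l F ↔ PJ l F 0 := by
  constructor
  · intro h G' hG' G hG hsub x hx y hy hy'
    refine ⟨fun _ h0 => absurd h0 (Nat.not_lt_zero _), ?_⟩
    intro hyx _ hgood
    exact h ⟨G', hG', G, hG, hsub, x, hx, y, hy, hy', hyx, hgood⟩
  · rintro h ⟨G', hG', G, hG, hsub, x, hx, y, hy, hy', hxy, hgood⟩
    exact (h G' hG' G hG hsub x hx y hy hy').2 hxy (Nat.zero_le _) hgood

open Classical in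
theorem iter (h1 : T_CNT) (m l : ℕ) (hl : m + 3 ≤ 2 * l) (j : ℕ) (hj : j ≤ m) :
    ((trees m).filter (fun U => PJ l (cuts U) j)).card =
      ((trees m).filter (fun U => PJ l (cuts U) 0)).card := by
  induction j with
  | zero => rfl
  | succ j ih => rw [h1 m l j hl (by omega), ih (by omega)]

open Classical in
theorem pf_MU (h1 : T_CNT) (h2 : T_D12) (h3 : T_D21) : T_MU := by
  intro n m hn hm
  have e1 : mu (pI n) m = ((trees m).filter (fun U => Con12 (n - 2) (cuts U))).card := by
    unfold mu
    congr 1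
    refine Finset.filter_congr ?_
    intro U hU
    exact h2 n m U hn (Finset.mem_filter.1 hU).2
  have e2 : mu (pJ n) m = ((trees m).filter (fun U => Con21 (n - 2) (cuts U))).card := by
    unfold mu
    congr 1
    refine Finset.filter_congr ?_
    intro U hU
    exact h3 n m U hn (Finset.mem_filter.1 hU).2
  have e3 : ((trees m).filter (fun U => ¬ Con12 (n - 2) (cuts U))).card =
      ((trees m).filter (fun U => ¬ Con21 (n - 2) (cuts U))).card := by
    have g1 : ((trees m).filter (fun U => ¬ Con12 (n - 2) (cuts U))) =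
        ((trees m).filter (fun U => PJ (n - 2) (cuts U) m)) :=
      Finset.filter_congr fun U _ => not_con12 _ _
    have g2 : ((trees m).filter (fun U => ¬ Con21 (n - 2) (cuts U))) =
        ((trees m).filter (fun U => PJ (n - 2) (cuts U) 0)) :=
      Finset.filter_congr fun U _ => not_con21 _ _
    rw [g1, g2]
    exact iter h1 m (n - 2) (by omega) m le_rfl
  have e4 := Finset.card_filter_add_card_filter_not (s := trees m)
    (fun U => Con12 (n - 2) (cuts U))
  have e5 := Finset.card_filter_add_card_filter_not (s := trees m)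
    (fun U => Con21 (n - 2) (cuts U))
  rw [e1, e2]
  omega

end Pool.Agent.H79.WT
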